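import Mathlib

set_option autoImplicit false

namespace Pool.Agent.Results.MP_b9e70b_co.Counter

open SimpleGraph

/-- the copies `f i` of `H` in `G` are vertex-disjoint and each is monochromatic under `χ` -/
def MonoPack {U V : Type} {r k : ℕ} {H : SimpleGraph U} {G : SimpleGraph V} (χ : Sym2 V → Fin r)
    (f : Fin k → H.Copy G) : Prop :=
  (∀ i j, i ≠ j → ∀ a b, f i a ≠ f j b) ∧
  ∀ i, ∃ col, ∀ a b, H.Adj a b → χ s(f i a, f i b) = col

variable (p : ℕ)

abbrev X := Bool × ZMod p × ZMod p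
abbrev W := X p ⊕ Fin (2 * p ^ 2 - p)

def R : W p → W p → Prop
  | .inl u, .inl v => u.1 ≠ v.1 ∧ u.2.2 + v.2.2 = u.2.1 * v.2.1
  | .inl _, .inr _ => True
  | .inr _, .inl _ => True
  | .inr _, .inr _ => False

def GG : SimpleGraph (W p) where
  Adj := R p
  symm := ⟨by
    rintro (u | u) (v | v) h
    · exact ⟨h.1.symm, by rw [add_comm, h.2, mul_comm]⟩
    all_goals exact h⟩
  loopless := ⟨by
    rintro (u | u) h
    · exact h.1 rfl
    · exact h⟩

def chi : Sym2 (W p) → Fin 2 :=
  Sym2.lift ⟨fun u v => if u.isLeft ∧ v.isLeft then 0 else 1, fun u v => by simp only [and_comm]⟩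

theorem card_X [NeZero p] : Fintype.card (X p) = 2 * p ^ 2 := by
  simp [X, ZMod.card]; ring

theorem le_sq : p ≤ 2 * p ^ 2 := by nlinarith

theorem deg [NeZero p] (v : W p) : ((GG p).neighborSet v).ncard = 2 * p ^ 2 := by
  rcases v with u | u
  · have h : (GG p).neighborSet (.inl u) =
        Set.range (fun a : ZMod p => (Sum.inl (!u.1, a, u.2.1 * a - u.2.2) : W p)) ∪
          Set.range Sum.inr := by
      ext (v | v)
      · simp only [mem_neighborSet, GG, R, Set.mem_union, Set.mem_range, Sum.inl.injEq,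
          reduceCtorEq, exists_false, or_false]
        obtain ⟨s, x, y⟩ := u
        obtain ⟨t, a, b⟩ := v
        simp only [Prod.mk.injEq]
        constructor
        · rintro ⟨h1, h2⟩
          refine ⟨a, ?_, rfl, by rw [← h2]; ring⟩
          revert s t; decide
        · rintro ⟨c, h1, rfl, h2⟩
          refine ⟨?_, by rw [← h2]; ring⟩
          revert s t; decide
      · simp [GG, R]
    rw [h, Set.ncard_union_eq _ (Set.toFinite _) (Set.toFinite _), Set.ncard_range_of_injective,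
      Set.ncard_range_of_injective Sum.inr_injective]
    · have := le_sq p
      simp only [Nat.card_eq_fintype_card, ZMod.card, Fintype.card_fin]
      omega
    · intro a b e
      simp only [Sum.inl.injEq, Prod.mk.injEq] at e
      exact e.2.1
    · rw [Set.disjoint_left]
      rintro _ ⟨a, rfl⟩ ⟨b, e⟩
      simp at e
  · have h : (GG p).neighborSet (.inr u) = Set.range Sum.inl := by
      ext (v | v) <;> simp [GG, R]
    rw [h, Set.ncard_range_of_injective Sum.inl_injective, Nat.card_eq_fintype_card, card_X]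

theorem no_red [Fact p.Prime] (a b c d : X p) (h1 : R p (.inl a) (.inl b))
    (h2 : R p (.inl b) (.inl c)) (h3 : R p (.inl c) (.inl d)) (h4 : R p (.inl d) (.inl a)) :
    a = c ∨ b = d := by
  obtain ⟨s0, x0, y0⟩ := a
  obtain ⟨s1, x1, y1⟩ := b
  obtain ⟨s2, x2, y2⟩ := c
  obtain ⟨s3, x3, y3⟩ := d
  simp only [R] at h1 h2 h3 h4
  have e : (x0 - x2) * (x1 - x3) = 0 := by
    linear_combination (-1 : ZMod p) * h1.2 + h2.2 - h3.2 + h4.2
  have b1 : ∀ s t u : Bool, s ≠ t → t ≠ u → s = u := by decide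
  rcases mul_eq_zero.1 e with e | e
  · left
    have e1 : x0 = x2 := sub_eq_zero.1 e
    refine Prod.ext (b1 _ _ _ h1.1 h2.1) (Prod.ext e1 ?_)
    show y0 = y2
    linear_combination h1.2 - h2.2 + x1 * e1
  · right
    have e1 : x1 = x3 := sub_eq_zero.1 e
    refine Prod.ext (b1 _ _ _ h2.1 h3.1) (Prod.ext e1 ?_)
    show y1 = y3
    linear_combination h2.2 - h3.2 + x2 * e1

theorem red_left {u v : W p} (h : chi p s(u, v) = 0) : ∃ a, u = .inl a := by
  rcases u with u | u
  · exact ⟨u, rfl⟩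
  · simp [chi] at h

theorem blue {u v : W p} (h : chi p s(u, v) = 1) : ∃ y, u = .inr y ∨ v = .inr y := by
  rcases u with u | u
  · rcases v with v | v
    · simp [chi] at h
    · exact ⟨v, Or.inr rfl⟩
  · exact ⟨u, Or.inl rfl⟩

theorem all_blue [Fact p.Prime] (f : (cycleGraph 4).Copy (GG p)) (col : Fin 2)
    (h : ∀ a b, (cycleGraph 4).Adj a b → chi p s(f a, f b) = col) : col = 1 := by
  by_contra hc
  have h0 : col = 0 := by omega
  subst h0
  have a01 : (cycleGraph 4).Adj 0 1 := by decide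
  have a12 : (cycleGraph 4).Adj 1 2 := by decide
  have a23 : (cycleGraph 4).Adj 2 3 := by decide
  have a30 : (cycleGraph 4).Adj 3 0 := by decide
  obtain ⟨a, ha⟩ := red_left p (h _ _ a01)
  obtain ⟨b, hb⟩ := red_left p (h _ _ a12)
  obtain ⟨c, hc⟩ := red_left p (h _ _ a23)
  obtain ⟨d, hd⟩ := red_left p (h _ _ a30)
  have m : ∀ x y, (cycleGraph 4).Adj x y → R p (f x) (f y) := fun x y e => f.toHom.map_adj e
  rcases no_red p a b c d (by rw [← ha, ← hb]; exact m _ _ a01) (by rw [← hb, ← hc]; exact m _ _ a12)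
    (by rw [← hc, ← hd]; exact m _ _ a23) (by rw [← hd, ← ha]; exact m _ _ a30) with e | e
  · have : (0 : Fin 4) = 2 := f.injective (show f 0 = f 2 by rw [ha, hc, e])
    exact absurd this (by decide)
  · have : (1 : Fin 4) = 3 := f.injective (show f 1 = f 3 by rw [hb, hd, e])
    exact absurd this (by decide)

def lo (j : Fin 2) : Fin 4 := ⟨2 * j.val, by omega⟩
def hi (j : Fin 2) : Fin 4 := ⟨2 * j.val + 1, by omega⟩

theorem bound [Fact p.Prime] (k : ℕ) (f : Fin k → (cycleGraph 4).Copy (GG p))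
    (h : MonoPack (chi p) f) : 2 * k ≤ 2 * p ^ 2 - p := by
  have h1 : ∀ q : Fin k × Fin 2, ∃ y, ∃ a, (a = lo q.2 ∨ a = hi q.2) ∧ f q.1 a = .inr y := by
    rintro ⟨i, j⟩
    obtain ⟨col, hcol⟩ := h.2 i
    have e := all_blue p (f i) col hcol
    subst e
    obtain ⟨y, hy | hy⟩ := blue p (hcol (lo j) (hi j) (by revert j; decide))
    · exact ⟨y, _, Or.inl rfl, hy⟩
    · exact ⟨y, _, Or.inr rfl, hy⟩
  choose y a ha hy using h1
  have h2 : Function.Injective y := by
    rintro ⟨i, j⟩ ⟨i', j'⟩ e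
    have e1 : f i (a (i, j)) = f i' (a (i', j')) := by rw [hy (i, j), hy (i', j'), e]
    have e2 : i = i' := by
      by_contra hc
      exact h.1 i i' hc _ _ e1
    subst e2
    have e3 : a (i, j) = a (i, j') := (f i).injective e1
    have k1 : ∀ (j j' : Fin 2) (b : Fin 4), (b = lo j ∨ b = hi j) → (b = lo j' ∨ b = hi j') →
      j = j' := by decide
    rw [k1 j j' _ (ha (i, j)) (e3 ▸ ha (i, j'))]
  have := Fintype.card_le_of_injective y h2
  simp only [Fintype.card_prod, Fintype.card_fin] at this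
  omega

theorem result (C : ℕ) : ∃ (V : Type) (_ : Fintype V) (G : SimpleGraph V) (d : ℕ)
    (χ : Sym2 V → Fin 2), (∀ v, (G.neighborSet v).ncard = d) ∧ Fintype.card V ≤ 2 * d ∧
    ∀ (k : ℕ) (f : Fin k → (cycleGraph 4).Copy G), MonoPack χ f →
      C < {v | ∀ i a, f i a ≠ v}.ncard := by
  obtain ⟨p, hp, hp'⟩ := Nat.exists_infinite_primes (C + 1)
  have : Fact p.Prime := ⟨hp'⟩
  have hc : Fintype.card (W p) = 2 * p ^ 2 + (2 * p ^ 2 - p) := by
    rw [Fintype.card_sum, card_X, Fintype.card_fin]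
  refine ⟨W p, inferInstance, GG p, 2 * p ^ 2, chi p, deg p, by omega, fun k f h => ?_⟩
  have h1 := bound p k f h
  have h2 : {v | ∀ i a, f i a ≠ v} = (Set.range (fun q : Fin k × Fin 4 => f q.1 q.2))ᶜ := by
    ext v
    simp
  have h3 := Set.ncard_add_ncard_compl (Set.range (fun q : Fin k × Fin 4 => f q.1 q.2))
  have h4 : (Set.range (fun q : Fin k × Fin 4 => f q.1 q.2)).ncard ≤ k * 4 := by
    rw [← Set.image_univ]
    refine (Set.ncard_image_le (Set.toFinite _)).trans ?_
    simp [Set.ncard_univ]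
  rw [Nat.card_eq_fintype_card, hc] at h3
  have := le_sq p
  rw [h2]
  omega

end Pool.Agent.Results.MP_b9e70b_co.Counter
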